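import Pool.Agent.Helper73.DC.St3

set_option autoImplicit false

/-! Project DC (MP_26f0da_lc), module F6: the value of level R is E2. -/

namespace Pool.Agent.Helper90.DC

open Pool.Agent.Helper73.DC
open Finset
open scoped Classical

/-- case distinction with the classical instance -/
noncomputable def cite (P : Prop) (a b : ℕ) : ℕ := @ite ℕ P (Classical.propDecidable P) a b

theorem cite_pos {P : Prop} (h : P) (a b : ℕ) : cite P a b = a := by
  unfold cite
  exact if_pos h

theorem cite_neg {P : Prop} (h : ¬ P) (a b : ℕ) : cite P a b = b := by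
  unfold cite
  exact if_neg h

theorem cite_le {P : Prop} {a b c : ℕ} (ha : a ≤ c) (hb : b ≤ c) : cite P a b ≤ c := by
  by_cases h : P
  · rw [cite_pos h]; exact ha
  · rw [cite_neg h]; exact hb

section basic

variable {α : Type}

theorem fnd_bound (w : List α) (p : ℕ → ℕ) (t : ℕ) (c : Cmd α) :
    ∀ y, (fnd w p t c y).1 < sz c ∧ (fnd w p t c y).2 ≤ y := by
  induction c with
  | asg i F => intro y; simp [fnd, sz]
  | glb F => intro y; simp [fnd, sz]
  | seq c d ihc ihd =>
    intro y
    by_cases h : y < tm w p t c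
    · have e : fnd w p t (Cmd.seq c d) y = fnd w p t c y := by
        simp only [fnd, if_pos h]
      rw [e]
      have := ihc y
      simp only [sz]
      omega
    · have e : fnd w p t (Cmd.seq c d) y =
          (sz c + (fnd w p t d (y - tm w p t c)).1, (fnd w p t d (y - tm w p t c)).2) := by
        simp only [fnd, if_neg h]
      rw [e]
      have := ihd (y - tm w p t c)
      simp only [sz]
      omega
  | rep n c ih =>
    intro y
    have e : fnd w p t (Cmd.rep n c) y = fnd w p t c (y % tm w p t c) := rfl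
    rw [e]
    have h1 := ih (y % tm w p t c)
    have h2 := Nat.mod_le y (tm w p t c)
    simp only [sz]
    omega
  | call i j =>
    intro y
    simp only [fnd, sz]
    split_ifs <;> simp

theorem upd_inv {M : ℕ} {l : ℕ → ℕ} (i d : ℕ) (hl : ∀ i, l i < M) (hd : d < M) :
    ∀ i', Function.update l i d i' < M := by
  intro i'
  by_cases h : i' = i
  · subst h; rw [Function.update_self]; exact hd
  · rw [Function.update_of_ne h]; exact hl i'

theorem setL_inv {M : ℕ} {s : FS} (r : ℕ) {l : ℕ → ℕ} (hs : ∀ q i, s.1 q i < M)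
    (hl : ∀ i, l i < M) : ∀ q i, (setL s r l).1 q i < M := by
  intro q i
  unfold setL
  by_cases h : q = r
  · subst h
    show (Function.update s.1 q l) q i < M
    rw [Function.update_self]; exact hl i
  · show (Function.update s.1 r l) q i < M
    rw [Function.update_of_ne h]; exact hs q i

theorem ini_inv {M x : ℕ} (hx : x < M) : ∀ i, ini x i < M := by
  intro i
  unfold ini
  split_ifs
  · exact hx
  · omega

theorem mic_inv (w : List α) (p : ℕ → ℕ) (m r : ℕ) (hp0 : 0 < p 0) (hp1 : 0 < p 1) (c : Cmd α) :
    ∀ (a : ℕ) (s : FS), (∀ q i, s.1 q i < p 0) → s.2 < p 1 →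
      (∀ q i, (mic w p m r c a s).1 q i < p 0) ∧ (mic w p m r c a s).2 < p 1 := by
  induction c with
  | asg i F =>
    intro a s hs hg
    exact ⟨setL_inv r hs (upd_inv i _ (hs r) (Nat.mod_lt _ hp0)), hg⟩
  | glb F =>
    intro a s hs hg
    exact ⟨hs, Nat.mod_lt _ hp1⟩
  | seq c d ihc ihd =>
    intro a s hs hg
    by_cases h : a < sz c
    · have e : mic w p m r (Cmd.seq c d) a s = mic w p m r c a s := by
        simp only [mic, if_pos h]
      rw [e]
      exact ihc a s hs hg
    · have e : mic w p m r (Cmd.seq c d) a s = mic w p m r d (a - sz c) s := by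
        simp only [mic, if_neg h]
      rw [e]
      exact ihd _ s hs hg
  | rep n c ih =>
    intro a s hs hg
    exact ih a s hs hg
  | call i j =>
    intro a s hs hg
    by_cases h0 : a = 0
    · have e : mic w p m r (Cmd.call i j) a s = setL s (r - 1) (ini (s.1 r i)) := by
        simp only [mic, if_pos h0]
      rw [e]
      exact ⟨setL_inv _ hs (ini_inv (hs r i)), hg⟩
    · by_cases h1 : a = 1
      · have e : mic w p m r (Cmd.call i j) a s = s := by
          simp only [mic, if_neg h0, if_pos h1]
        rw [e]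
        exact ⟨hs, hg⟩
      · have e : mic w p m r (Cmd.call i j) a s =
            setL s r (Function.update (s.1 r) j (s.1 (r - 1) 1 % p 0)) := by
          simp only [mic, if_neg h0, if_neg h1]
        rw [e]
        exact ⟨setL_inv _ hs (upd_inv j _ (hs r) (Nat.mod_lt _ hp0)), hg⟩

/-- truncated number of steps; context `[r, N, R, x, g, p ..]` -/
def TTF : VF α := fun _ v => min 1 (v 1 + 1)

def TTG (body : Cmd α) : VF α := fun w u => min (tm w (fun i => u (i + 7)) (u 1) body) (u 3 + 1)

def TTf (body : Cmd α) : VF α := fun w v => prec TTF (TTG body) w v (v 0)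

theorem tt_eq (body : Cmd α) (w : List α) (p : ℕ → ℕ) (N R x g r' : ℕ)
    (hT : ∀ r ≤ R, Tot w p body r ≤ N) : ∀ r ≤ R,
    prec TTF (TTG body) w (scons r' (scons N (scons R (scons x (scons g p))))) r =
      Tot w p body r := by
  intro r
  induction r with
  | zero =>
    intro _
    have h := hT 0 (Nat.zero_le _)
    show min 1 (N + 1) = 1
    omega
  | succ r ih =>
    intro hr
    have h1 := ih (by omega)
    have h2 := hT (r + 1) hr
    show min (tm w p (prec TTF (TTG body) w
      (scons r' (scons N (scons R (scons x (scons g p))))) r) body) (N + 1) = _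
    rw [h1]
    have e : Tot w p body (r + 1) = tm w p (Tot w p body r) body := rfl
    rw [e] at h2 ⊢
    omega

theorem TTf_eq (body : Cmd α) (w : List α) (p : ℕ → ℕ) (N R x g r : ℕ)
    (hT : ∀ r ≤ R, Tot w p body r ≤ N) (hr : r ≤ R) :
    TTf body w (scons r (scons N (scons R (scons x (scons g p))))) = Tot w p body r :=
  tt_eq body w p N R x g r hT r hr

/-- descent; context of the step `[step, q0, q1, q2, y, N, R, x, g, p ..]` -/
def Tq (body : Cmd α) : VF α := fun w u => TTf body w (scons (u 1 - 1) (fun i => u (i + 5)))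

def f1 (body : Cmd α) : VF α := fun w u =>
  (fnd w (fun i => u (i + 9)) (Tq body w u) body (u 2)).1

def f2 (body : Cmd α) : VF α := fun w u =>
  (fnd w (fun i => u (i + 9)) (Tq body w u) body (u 2)).2

noncomputable def G0 (body : Cmd α) : VF α := fun w u =>
  cite (u 3 = 0) (cite (u 1 = 0) 0 (cite (low body (f1 body w u)) (u 1 - 1) (u 1))) (u 1)

noncomputable def G1 (body : Cmd α) : VF α := fun w u =>
  cite (u 3 = 0) (cite (u 1 = 0) (u 2) (cite (low body (f1 body w u)) (f2 body w u) (u 2))) (u 2)

noncomputable def G2 (body : Cmd α) : VF α := fun w u =>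
  cite (u 3 = 0) (cite (u 1 = 0) 1 (cite (low body (f1 body w u)) 0 (f1 body w u + 1))) (u 3)

noncomputable def GD (body : Cmd α) (i : ℕ) : VF α :=
  if i = 0 then G0 body else if i = 1 then G1 body else G2 body

def FD (i : ℕ) : VF α :=
  if i = 0 then (fun _ v => v 2) else if i = 1 then (fun _ v => v 0) else fun _ _ => 0

theorem cat_add (k : ℕ) (u v : ℕ → ℕ) (j : ℕ) : cat k u v (j + k) = v j := by
  unfold cat
  rw [if_neg (by omega)]
  congr 1
  omega

theorem cat_lt {k j : ℕ} (u v : ℕ → ℕ) (h : j < k) : cat k u v j = u j := by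
  unfold cat
  rw [if_pos h]

theorem vrec_bound (body : Cmd α) (w : List α) (v : ℕ → ℕ) : ∀ n,
    vrec 3 FD (GD body) w v n 0 ≤ v 2 ∧ vrec 3 FD (GD body) w v n 1 ≤ v 0 ∧
      vrec 3 FD (GD body) w v n 2 ≤ sz body + 1 := by
  intro n
  induction n with
  | zero => exact ⟨le_rfl, le_rfl, Nat.zero_le _⟩
  | succ n ih =>
    obtain ⟨h0, h1, h2⟩ := ih
    set V := vrec 3 FD (GD body) w v n with hV
    set u := scons n (cat 3 V v) with hu
    have u1 : u 1 = V 0 := rfl
    have u2 : u 2 = V 1 := rfl
    have u3 : u 3 = V 2 := rfl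
    have hf := fnd_bound w (fun i => u (i + 9)) (Tq body w u) body (u 2)
    refine ⟨?_, ?_, ?_⟩
    · show G0 body w u ≤ v 2
      unfold G0
      refine cite_le (cite_le (Nat.zero_le _) (cite_le ?_ ?_)) ?_ <;> omega
    · show G1 body w u ≤ v 0
      unfold G1
      have hf2 : f2 body w u ≤ u 2 := hf.2
      refine cite_le (cite_le ?_ (cite_le ?_ ?_)) ?_ <;> omega
    · show G2 body w u ≤ sz body + 1
      unfold G2
      have hf1 : f1 body w u < sz body := hf.1
      refine cite_le (cite_le ?_ (cite_le ?_ ?_)) ?_ <;> omega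

theorem vrec_dsc (body : Cmd α) (w : List α) (p : ℕ → ℕ) (N R x g y : ℕ)
    (hT : ∀ r ≤ R, Tot w p body r ≤ N) : ∀ n,
    (vrec 3 FD (GD body) w (scons y (scons N (scons R (scons x (scons g p))))) n 0,
      vrec 3 FD (GD body) w (scons y (scons N (scons R (scons x (scons g p))))) n 1,
      vrec 3 FD (GD body) w (scons y (scons N (scons R (scons x (scons g p))))) n 2) =
      (dsc w p body)^[n] (R, y, 0) := by
  intro n
  induction n with
  | zero => rfl
  | succ n ih =>
    set C := scons N (scons R (scons x (scons g p))) with hC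
    have hb := vrec_bound body w (scons y C) n
    rw [Function.iterate_succ_apply', ← ih]
    set V := vrec 3 FD (GD body) w (scons y C) n with hV
    have hV0 : V 0 ≤ R := hb.1
    set u := scons n (cat 3 V (scons y C)) with hu
    have u1 : u 1 = V 0 := rfl
    have u2 : u 2 = V 1 := rfl
    have u3 : u 3 = V 2 := rfl
    have hctx : (fun i => u (i + 5)) = C := by
      funext i
      show cat 3 V (scons y C) (i + 4) = C i
      have := cat_add 3 V (scons y C) (i + 1)
      exact this
    have hctx2 : (fun i => u (i + 9)) = p := by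
      funext i
      show cat 3 V (scons y C) (i + 8) = p i
      have := cat_add 3 V (scons y C) (i + 5)
      exact this
    have hTq : Tq body w u = Tot w p body (V 0 - 1) := by
      unfold Tq
      rw [hctx, u1]
      exact TTf_eq body w p N R x g (V 0 - 1) hT (by omega)
    have hf1 : f1 body w u = (fnd w p (Tot w p body (V 0 - 1)) body (V 1)).1 := by
      unfold f1
      rw [hctx2, hTq, u2]
    have hf2 : f2 body w u = (fnd w p (Tot w p body (V 0 - 1)) body (V 1)).2 := by
      unfold f2
      rw [hctx2, hTq, u2]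
    show (G0 body w u, G1 body w u, G2 body w u) = dsc w p body (V 0, V 1, V 2)
    unfold G0 G1 G2 dsc
    rw [u1, u2, u3, hf1, hf2]
    by_cases h3 : V 2 = 0
    · rw [cite_pos h3, cite_pos h3, cite_pos h3, if_neg (not_not.mpr h3)]
      by_cases h1 : V 0 = 0
      · rw [cite_pos h1, cite_pos h1, cite_pos h1, if_pos h1]
      · rw [cite_neg h1, cite_neg h1, cite_neg h1, if_neg h1]
        by_cases hl : low body (fnd w p (Tot w p body (V 0 - 1)) body (V 1)).1
        · rw [cite_pos hl, cite_pos hl, cite_pos hl, if_pos hl]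
        · rw [cite_neg hl, cite_neg hl, cite_neg hl, if_neg hl]
    · rw [cite_neg h3, cite_neg h3, cite_neg h3, if_pos h3]

/-- descent results; context `[y, N, R, x, g, p ..]` -/
noncomputable def DD (body : Cmd α) (i : ℕ) : VF α := fun w v =>
  vrec 3 FD (GD body) w v (v 2 + 1) i

/-- outer step; context `[y, X, g', N, R, x, g, p ..]` -/
noncomputable def Dr (body : Cmd α) (i : ℕ) : VF α := fun w u =>
  DD body i w (scons (u 0) (fun i => u (i + 3)))

noncomputable def base (bs : VF α) : VF α := fun w u =>
  sdc (u 3) (u 7) (u 1) 1 (bs w (scons (dg (u 7) (u 1) 0) (fun i => u (i + 7))) % u 7)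

noncomputable def PX (body : Cmd α) (X : VF α) : VF α := fun w u =>
  X w (pctx (u 3) (Dr body 0 w u) (Dr body 2 w u - 1) (u 1) (u 2) 0 (fun i => u (i + 7)))

noncomputable def GO (body : Cmd α) (bs X Gg : VF α) (i : ℕ) : VF α :=
  if i = 0 then (fun w u => min (cite (Dr body 0 w u = 0) (base bs w u) (PX body X w u)) (u 3))
  else (fun w u => min (cite (Dr body 0 w u = 0) (u 2) (PX body Gg w u)) (u 3))

def FO (m : ℕ) (i : ℕ) : VF α :=
  if i = 0 then (fun _ v => min (sdc (v 0) (v 4) 0 (v 1 * m) (v 2)) (v 0))
  else (fun _ v => min (v 3) (v 0))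

end basic

section e2

variable {α : Type} [Fintype α]

theorem e2_ite (hL2 : StL2) {P : List α → (ℕ → ℕ) → Prop} {F G : VF α} (hP : E2P P) (hF : E2 F)
    (hG : E2 G) : E2 (fun w v => cite (P w v) (F w v) (G w v)) :=
  hL2.2.2 P F G hP hF hG

theorem e2_eq0 (hL2 : StL2) {F : VF α} (hF : E2 F) : E2P (fun w v => F w v = 0) :=
  (hL2.1 F (fun _ _ => 0) hF E2.zero).2.2

theorem e2_TTf (hL1 : StL1) (hF5 : StF5) (m : ℕ) (body : Cmd α) (hok : body.ok m) :
    E2 (TTf body) := by
  have h5 := (hF5 m body hok).1
  have htm : E2 (fun w (u : ℕ → ℕ) => tm w (fun i => u (i + 7)) (u 1) body) :=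
    h5.subst (fun i => match i with
      | 0 => fun _ _ => 0
      | 1 => fun _ u => u 1
      | i + 2 => fun _ u => u (i + 7)) (by
        intro i
        match i with
        | 0 => exact E2.zero
        | 1 => exact E2.get 1
        | i + 2 => exact E2.get (i + 7))
  have hF : E2 (TTF (α := α)) :=
    (hL1 (fun _ _ => 1) (fun _ v => v 1 + 1) (E2.const 1) (E2.succ _ (E2.get 1))).2.1
  have hG : E2 (TTG body) := (hL1 _ (fun _ u => u 3 + 1) htm (E2.succ _ (E2.get 3))).2.1
  refine E2.brec (H := fun _ v => v 0) (B := fun _ v => v 1 + 1) hF hG (E2.get 0)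
    (E2.succ _ (E2.get 1)) ?_
  intro w v y _
  cases y with
  | zero => exact min_le_right _ _
  | succ y => exact min_le_right _ _

theorem e2_Tq (hL1 : StL1) (hF5 : StF5) (m : ℕ) (body : Cmd α) (hok : body.ok m) :
    E2 (Tq body) :=
  (e2_TTf hL1 hF5 m body hok).subst (fun i => match i with
      | 0 => fun _ u => u 1 - 1
      | i + 1 => fun _ u => u (i + 5)) (by
        intro i
        match i with
        | 0 => exact (hL1 (fun _ u => u 1) (fun _ _ => 1) (E2.get 1) (E2.const 1)).1
        | i + 1 => exact E2.get (i + 5)) |> fun h => by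
          have e : (Tq body) = (fun w v => TTf body w (fun i => (match i with
            | 0 => fun _ u => u 1 - 1
            | i + 1 => fun _ u => u (i + 5) : VF α) w v)) := by
            funext w u
            unfold Tq
            congr 1
            funext i
            cases i <;> rfl
          rw [e]
          exact h

/-- the three functions of the step number -/
theorem e2_f (hL1 : StL1) (hF5 : StF5) (m : ℕ) (body : Cmd α) (hok : body.ok m) :
    E2 (f1 body) ∧ E2 (f2 body) ∧ E2P (fun w u => low body (f1 body w u)) := by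
  have hq := e2_Tq hL1 hF5 m body hok
  have hσ : ∀ i, E2 ((fun i => match i with
      | 0 => fun _ u => u 2
      | 1 => Tq body
      | i + 2 => fun _ u => u (i + 9) : ℕ → VF α) i) := by
    intro i
    match i with
    | 0 => exact E2.get 2
    | 1 => exact hq
    | i + 2 => exact E2.get (i + 9)
  have h1 : E2 (f1 body) := (hF5 m body hok).2.1.subst _ hσ
  have h2 : E2 (f2 body) := (hF5 m body hok).2.2.1.subst _ hσ
  refine ⟨h1, h2, ?_⟩
  have h3 := (hF5 m body hok).2.2.2
  have h4 := E2.sub1 (G := f1 body) h3 h1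
  exact h4

theorem e2_GD (hL1 : StL1) (hL2 : StL2) (hF5 : StF5) (m : ℕ) (body : Cmd α) (hok : body.ok m) :
    E2 (G0 body) ∧ E2 (G1 body) ∧ E2 (G2 body) := by
  obtain ⟨h1, h2, h3⟩ := e2_f hL1 hF5 m body hok
  have e3 : E2P (α := α) (fun _ u => u 3 = 0) := e2_eq0 hL2 (E2.get 3)
  have e1 : E2P (α := α) (fun _ u => u 1 = 0) := e2_eq0 hL2 (E2.get 1)
  have s1 : E2 (α := α) (fun _ u => u 1 - 1) :=
    (hL1 (fun _ u => u 1) (fun _ _ => 1) (E2.get 1) (E2.const 1)).1
  refine ⟨?_, ?_, ?_⟩
  · exact e2_ite hL2 e3 (e2_ite hL2 e1 E2.zero (e2_ite hL2 h3 s1 (E2.get 1))) (E2.get 1)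
  · exact e2_ite hL2 e3 (e2_ite hL2 e1 (E2.get 2) (e2_ite hL2 h3 h2 (E2.get 2))) (E2.get 2)
  · exact e2_ite hL2 e3 (e2_ite hL2 e1 (E2.const 1) (e2_ite hL2 h3 E2.zero (E2.succ _ h1)))
      (E2.get 3)

theorem e2_DD (hL1 : StL1) (hL2 : StL2) (hL8 : StL8) (hF5 : StF5) (m : ℕ) (body : Cmd α)
    (hok : body.ok m) (i : ℕ) (hi : i < 3) : E2 (DD body i) := by
  obtain ⟨g0, g1, g2⟩ := e2_GD hL1 hL2 hF5 m body hok
  have hB : E2 (α := α) (fun _ v => v 0 + v 2 + (sz body + 1)) :=
    ((E2.get 0).add (E2.get 2)).add (E2.const _)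
  refine hL8 3 FD (GD body) (fun _ v => v 2 + 1) _ ?_ ?_ (E2.succ _ (E2.get 2)) hB ?_ i hi
  · intro i hi
    have h : i = 0 ∨ i = 1 ∨ i = 2 := by omega
    rcases h with h | h | h <;> subst h
    · exact E2.get 2
    · exact E2.get 0
    · exact E2.zero
  · intro i hi
    have h : i = 0 ∨ i = 1 ∨ i = 2 := by omega
    rcases h with h | h | h <;> subst h
    · exact g0
    · exact g1
    · exact g2
  · intro w v y _ i hi
    have hb := vrec_bound body w v y
    have h : i = 0 ∨ i = 1 ∨ i = 2 := by omega
    rcases h with h | h | h <;> subst h <;> omega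

theorem e2_Dr (hL1 : StL1) (hL2 : StL2) (hL8 : StL8) (hF5 : StF5) (m : ℕ) (body : Cmd α)
    (hok : body.ok m) (i : ℕ) (hi : i < 3) : E2 (Dr body i) := by
  have h := (e2_DD hL1 hL2 hL8 hF5 m body hok i hi).subst (fun i => match i with
      | 0 => fun _ u => u 0
      | i + 1 => fun _ u => u (i + 3)) (by
        intro i
        match i with
        | 0 => exact E2.get 0
        | i + 1 => exact E2.get (i + 3))
  have e : (Dr body i) = (fun w v => DD body i w (fun i => (match i with
      | 0 => fun _ u => u 0
      | i + 1 => fun _ u => u (i + 3) : VF α) w v)) := by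
    funext w u
    unfold Dr
    congr 1
    funext i
    cases i <;> rfl
  rw [e]
  exact h

theorem e2_dg (hL5 : StL5) {B x i : VF α} (hB : E2 B) (hx : E2 x) (hi : E2 i) :
    E2 (fun w v => dg (B w v) (x w v) (i w v)) :=
  (hL5 B x i (fun _ _ => 0) (fun _ _ => 0) hB hx hi E2.zero E2.zero).2.1

theorem e2_sdc (hL5 : StL5) {C B x i d : VF α} (hC : E2 C) (hB : E2 B) (hx : E2 x) (hi : E2 i)
    (hd : E2 d) : E2 (fun w v => sdc (C w v) (B w v) (x w v) (i w v) (d w v)) :=
  (hL5 B x i d C hB hx hi hd hC).2.2.1

theorem e2_base (hL4 : StL4) (hL5 : StL5) {bs : VF α} (hbs : E2 bs) : E2 (base bs) := by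
  have hd : E2 (α := α) (fun _ u => dg (u 7) (u 1) 0) := e2_dg hL5 (E2.get 7) (E2.get 1) E2.zero
  have h := hbs.subst (fun i => match i with
      | 0 => fun _ u => dg (u 7) (u 1) 0
      | i + 1 => fun _ u => u (i + 7)) (by
        intro i
        match i with
        | 0 => exact hd
        | i + 1 => exact E2.get (i + 7))
  have e : (fun w (u : ℕ → ℕ) => bs w (scons (dg (u 7) (u 1) 0) (fun i => u (i + 7)))) =
      (fun w v => bs w (fun i => (match i with
      | 0 => fun _ u => dg (u 7) (u 1) 0
      | i + 1 => fun _ u => u (i + 7) : VF α) w v)) := by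
    funext w u
    congr 1
    funext i
    cases i <;> rfl
  rw [← e] at h
  exact e2_sdc hL5 (E2.get 3) (E2.get 7) (E2.get 1) (E2.const 1) ((hL4 _ (fun _ u => u 7) h (E2.get 7)).2)

theorem e2_PX (hL1 : StL1) (hL2 : StL2) (hL8 : StL8) (hF5 : StF5) (m : ℕ) (body : Cmd α)
    (hok : body.ok m) {X : VF α} (hX : E2 X) : E2 (PX body X) := by
  have h0 := e2_Dr hL1 hL2 hL8 hF5 m body hok 0 (by omega)
  have h2 := e2_Dr hL1 hL2 hL8 hF5 m body hok 2 (by omega)
  have h2' : E2 (fun w u => Dr body 2 w u - 1) := (hL1 _ (fun _ _ => 1) h2 (E2.const 1)).1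
  have h := hX.subst (fun i => match i with
      | 0 => fun _ u => u 3
      | 1 => Dr body 0
      | 2 => fun w u => Dr body 2 w u - 1
      | 3 => fun _ u => u 1
      | 4 => fun _ u => u 2
      | 5 => fun _ _ => 0
      | i + 6 => fun _ u => u (i + 7)) (by
        intro i
        match i with
        | 0 => exact E2.get 3
        | 1 => exact h0
        | 2 => exact h2'
        | 3 => exact E2.get 1
        | 4 => exact E2.get 2
        | 5 => exact E2.zero
        | i + 6 => exact E2.get (i + 7))
  have e : (PX body X) = (fun w v => X w (fun i => (match i with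
      | 0 => fun _ u => u 3
      | 1 => Dr body 0
      | 2 => fun w u => Dr body 2 w u - 1
      | 3 => fun _ u => u 1
      | 4 => fun _ u => u 2
      | 5 => fun _ _ => 0
      | i + 6 => fun _ u => u (i + 7) : VF α) w v)) := by
    funext w u
    unfold PX pctx
    congr 1
    funext i
    match i with
    | 0 => rfl
    | 1 => rfl
    | 2 => rfl
    | 3 => rfl
    | 4 => rfl
    | 5 => rfl
    | i + 6 => rfl
  rw [e]
  exact h

end e2

/-- module F6 -/
theorem mF6 : StL1 → StL2 → StL3 → StL4 → StL5 → StL6 → StL7 → StL8 → StF1 → StF2 → StF3 →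
    StF4 → StF5 → StF6 := by
  intro hL1 hL2 _ hL4 hL5 _ _ hL8 hF1 hF2 hF3 hF4 hF5
  intro α _ m bs body hm hbs hok
  obtain ⟨X, Gg, hX, hGg, hXG⟩ := hF4 m body hm hok
  have hDr0 := e2_Dr hL1 hL2 hL8 hF5 m body hok 0 (by omega)
  have hPX := e2_PX hL1 hL2 hL8 hF5 m body hok hX
  have hPG := e2_PX hL1 hL2 hL8 hF5 m body hok hGg
  have hbase := e2_base hL4 hL5 hbs
  have hd0 : E2P (fun w u => Dr body 0 w u = 0) := e2_eq0 hL2 hDr0
  have hGx : E2 (fun w u => min (cite (Dr body 0 w u = 0) (base bs w u) (PX body X w u)) (u 3)) :=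
    (hL1 _ (fun _ u => u 3) (e2_ite hL2 hd0 hbase hPX) (E2.get 3)).2.1
  have hGy : E2 (fun w u => min (cite (Dr body 0 w u = 0) (u 2) (PX body Gg w u)) (u 3)) :=
    (hL1 _ (fun _ u => u 3) (e2_ite hL2 hd0 (E2.get 2) hPG) (E2.get 3)).2.1
  have hH : E2 (fun w v => TTf body w (scons (v 1) v)) :=
    E2.sub1 (e2_TTf hL1 hF5 m body hok) (E2.get 1)
  have hrec : E2 (fun w v => vrec 2 (FO m) (GO body bs X Gg) w v (TTf body w (scons (v 1) v)) 0) := by
    refine hL8 2 (FO m) (GO body bs X Gg) _ (fun _ v => v 0) ?_ ?_ hH (E2.get 0) ?_ 0 (by omega)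
    · intro i hi
      have h : i = 0 ∨ i = 1 := by omega
      rcases h with h | h <;> subst h
      · exact (hL1 _ (fun _ v => v 0) (e2_sdc hL5 (E2.get 0) (E2.get 4) E2.zero
          ((E2.get 1).mul (E2.const m)) (E2.get 2)) (E2.get 0)).2.1
      · exact (hL1 (fun _ v => v 3) (fun _ v => v 0) (E2.get 3) (E2.get 0)).2.1
    · intro i hi
      have h : i = 0 ∨ i = 1 := by omega
      rcases h with h | h <;> subst h
      · exact hGx
      · exact hGy
    · intro w v y _ i hi
      have h : i = 0 ∨ i = 1 := by omega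
      cases y with
      | zero =>
        rcases h with h | h <;> subst h
        · exact min_le_right _ _
        · exact min_le_right _ _
      | succ y =>
        rcases h with h | h <;> subst h
        · exact min_le_right _ _
        · exact min_le_right _ _
  refine ⟨fun w v => dg (v 4) (vrec 2 (FO m) (GO body bs X Gg) w v
    (TTf body w (scons (v 1) v)) 0) (v 1 * m + 1),
    e2_dg hL5 (E2.get 4) hrec (((E2.get 1).mul (E2.const m)).succ), ?_⟩
  intro w p N R x g hp0 hx hg hp1N hN hT
  have hp1 : 0 < p 1 := by omega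
  set C := scons N (scons R (scons x (scons g p))) with hC
  set s0 : FS := (Function.update (fun _ _ => 0) R (ini x), g) with hs0
  have hs0R : s0.1 R = ini x := by
    show (Function.update (fun _ _ => 0) R (ini x) : ℕ → ℕ → ℕ) R = ini x
    rw [Function.update_self]
  -- invariant
  have hinv : ∀ n, Pck (p 0) m R (vrec 2 (FO m) (GO body bs X Gg) w C n 0)
        (runs (MU w p m bs body R) 0 n s0).1 ∧
      vrec 2 (FO m) (GO body bs X Gg) w C n 1 = (runs (MU w p m bs body R) 0 n s0).2 ∧
      (∀ q i, (runs (MU w p m bs body R) 0 n s0).1 q i < p 0) ∧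
      (runs (MU w p m bs body R) 0 n s0).2 < p 1 := by
    intro n
    induction n with
    | zero =>
      have hRm : R * m < m * (R + 1) := by nlinarith
      obtain ⟨k1, k2, k3⟩ := hF3 (p 0) 0 (R * m) x (m * (R + 1)) hp0 hx hRm (by positivity)
      have hcap : (p 0) ^ (R * m) ≤ N :=
        (Nat.pow_le_pow_right hp0 hRm.le).trans hN
      have k4 := k3 N hcap
      have hinit : vrec 2 (FO m) (GO body bs X Gg) w C 0 0 = sd (p 0) 0 (R * m) x := by
        show min (sdc N (p 0) 0 (R * m) x) N = _
        rw [k4]
        exact min_eq_left (k1.le.trans hN)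
      have hall : ∀ q i, s0.1 q i < p 0 := by
        intro q i
        rw [hs0]
        show (Function.update (fun _ _ => 0) R (ini x)) q i < p 0
        by_cases h : q = R
        · subst h
          rw [Function.update_self]
          exact ini_inv hx i
        · rw [Function.update_of_ne h]
          exact hp0
      refine ⟨⟨?_, ?_⟩, ?_, hall, hg⟩
      · rw [hinit]; exact k1
      · intro r hr i hi
        rw [hinit, k2]
        show _ = (Function.update (fun _ _ => 0) R (ini x)) r i
        have hdg0 : dg (p 0) 0 (r * m + i) = 0 := by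
          unfold dg
          simp
        by_cases h : r = R
        · subst h
          rw [Function.update_self]
          unfold ini
          by_cases h0 : i = 0
          · subst h0
            rw [if_pos (by omega), if_pos rfl]
          · rw [if_neg (by omega), if_neg h0, hdg0]
        · rw [Function.update_of_ne h]
          have hne : r * m + i ≠ R * m := by
            intro he
            have h1 : r + 1 ≤ R := by omega
            have h2 : (r + 1) * m ≤ R * m := Nat.mul_le_mul_right _ h1
            nlinarith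
          rw [if_neg hne, hdg0]
      · show min g N = g
        exact min_eq_left (by omega)
    | succ n ih =>
      obtain ⟨i1, i2, i3, i4⟩ := ih
      set V := vrec 2 (FO m) (GO body bs X Gg) w C n with hV
      set s := runs (MU w p m bs body R) 0 n s0 with hs
      obtain ⟨d1, d2⟩ := hF2 w p m bs body R n s
      have hrun : runs (MU w p m bs body R) 0 (n + 1) s0 = MU w p m bs body R n s := by
        show MU w p m bs body R (0 + n) s = _
        rw [Nat.zero_add]
      rw [hrun]
      set u := scons n (cat 2 V C) with hu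
      have u0 : u 0 = n := rfl
      have u1 : u 1 = V 0 := rfl
      have u2 : u 2 = V 1 := rfl
      have u3 : u 3 = N := rfl
      have u7 : u 7 = p 0 := rfl
      have hctx : (fun i => u (i + 3)) = C := by
        funext i
        show cat 2 V C (i + 2) = C i
        exact cat_add 2 V C i
      have hctx2 : (fun i => u (i + 7)) = p := by
        funext i
        show cat 2 V C (i + 6) = p i
        have := cat_add 2 V C (i + 4)
        exact this
      have hvd := vrec_dsc body w p N R x g n hT (R + 1)
      have hDr : ∀ i, Dr body i w u = vrec 3 FD (GD body) w (scons n C) (R + 1) i := by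
        intro i
        unfold Dr DD
        rw [hctx, u0]
        rfl
      have hD0 : Dr body 0 w u = ((dsc w p body)^[R + 1] (R, n, 0)).1 := by
        rw [hDr, ← hvd]
      have hD2 : Dr body 2 w u = ((dsc w p body)^[R + 1] (R, n, 0)).2.2 := by
        rw [hDr, ← hvd]
      set q := (dsc w p body)^[R + 1] (R, n, 0) with hq
      have hv0 : vrec 2 (FO m) (GO body bs X Gg) w C (n + 1) 0 =
          min (cite (q.1 = 0) (base bs w u) (PX body X w u)) N := by
        show min (cite (Dr body 0 w u = 0) (base bs w u) (PX body X w u)) N = _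
        rw [hD0]
      have hv1 : vrec 2 (FO m) (GO body bs X Gg) w C (n + 1) 1 =
          min (cite (q.1 = 0) (V 1) (PX body Gg w u)) N := by
        show min (cite (Dr body 0 w u = 0) (u 2) (PX body Gg w u)) N = _
        rw [hD0, u2]
      rw [hv0, hv1, d2]
      by_cases h0 : q.1 = 0
      · rw [if_pos h0, cite_pos h0, cite_pos h0]
        set val := bs w (scons (s.1 0 0) p) % p 0 with hval
        have hvallt : val < p 0 := Nat.mod_lt _ hp0
        have hdg : dg (p 0) (V 0) 0 = s.1 0 0 := by
          have := i1.2 0 (Nat.zero_le _) 0 (by omega)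
          simpa using this
        have h1lt : 1 < m * (R + 1) := by nlinarith
        obtain ⟨k1, k2, k3⟩ := hF3 (p 0) (V 0) 1 val (m * (R + 1)) hp0 hvallt h1lt i1.1
        have hcap : (p 0) ^ 1 ≤ N := (Nat.pow_le_pow_right hp0 h1lt.le).trans hN
        have hb : base bs w u = sd (p 0) (V 0) 1 val := by
          unfold base
          rw [u3, u7, u1, hctx2, hdg]
          exact k3 N hcap
        rw [hb, min_eq_left (k1.le.trans hN)]
        refine ⟨⟨k1, ?_⟩, ?_, ?_, i4⟩
        · intro r hr i hi
          rw [k2]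
          show _ = (Function.update s.1 0 (Function.update (s.1 0) 1 val)) r i
          by_cases hr0 : r = 0
          · subst hr0
            rw [Function.update_self]
            by_cases hi1 : i = 1
            · subst hi1
              rw [if_pos (by omega), Function.update_self]
            · rw [if_neg (by omega), Function.update_of_ne hi1]
              exact i1.2 0 (Nat.zero_le _) i hi
          · rw [Function.update_of_ne hr0]
            have hne : r * m + i ≠ 1 := by
              have h1 : 1 ≤ r := by omega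
              have h2 : 1 * m ≤ r * m := Nat.mul_le_mul_right _ h1
              omega
            rw [if_neg hne]
            exact i1.2 r hr i hi
        · rw [i2]
          exact min_eq_left (by omega)
        · exact setL_inv 0 i3 (upd_inv 1 _ (i3 0) hvallt)
      · rw [if_neg h0, cite_neg h0, cite_neg h0]
        have hX1 := hXG w p R N q.1 (q.2.2 - 1) (V 0) s.2 0 s.1 hp0 hN (by omega) d1 i3 i1
        have hpx : ∀ Z : VF α, PX body Z w u = Z w (pctx N q.1 (q.2.2 - 1) (V 0) s.2 0 p) := by
          intro Z
          unfold PX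
          rw [u3, u1, u2, hctx2, hD0, hD2, i2]
        rw [hpx, hpx]
        have hse : ((s.1, s.2) : FS) = s := rfl
        rw [hse] at hX1
        have hmi := mic_inv w p m q.1 hp0 hp1 body (q.2.2 - 1) s i3 i4
        rw [hX1.2, min_eq_left (hX1.1.1.le.trans hN), min_eq_left (by have := hmi.2; omega)]
        exact ⟨hX1.1, rfl, hmi.1, hmi.2⟩
  -- conclusion
  have hfin := hinv (Tot w p body R)
  have hF1' := (hF1 w p m bs body R x s0 hs0R).1
  show dg (p 0) (vrec 2 (FO m) (GO body bs X Gg) w C (TTf body w (scons R C)) 0) (R * m + 1) = _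
  rw [TTf_eq body w p N R x g R hT le_rfl, hfin.1.2 R le_rfl 1 (by omega), hF1']

end Pool.Agent.Helper90.DC
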